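import Mathlib

set_option autoImplicit false

namespace Pool.Agent.Helper675.SRG02

open Finset Matrix

variable {V : Type*} [Fintype V] [DecidableEq V] (Γ : SimpleGraph V) [DecidableRel Γ.Adj]

/-- the matrix `1 + A` modulo `p` -/
def B (p : ℕ) : Matrix V V (ZMod p) := 1 + Γ.adjMatrix (ZMod p)

theorem B_apply (p : ℕ) (x y : V) :
    B Γ p x y = if x = y ∨ Γ.Adj x y then 1 else 0 := by
  unfold B
  rw [Matrix.add_apply, Matrix.one_apply, SimpleGraph.adjMatrix_apply]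
  by_cases h : x = y
  · subst h
    simp
  · simp [h]

theorem B_inv (p : ℕ) (σ : Γ ≃g Γ) (x y : V) : B Γ p (σ x) (σ y) = B Γ p x y := by
  rw [B_apply, B_apply]
  simp [SimpleGraph.Iso.map_adj_iff]

theorem cast_k {k p : ℕ} (hk : 1 ≤ k) (hd : p ∣ k - 1) : (k : ZMod p) = 1 := by
  have h := (ZMod.natCast_eq_zero_iff (k - 1) p).2 hd
  rw [Nat.cast_sub hk] at h
  push_cast at h
  exact sub_eq_zero.1 h

theorem B_sq {k p : ℕ} (h : Γ.IsSRGWith (Fintype.card V) k 0 2) (hk : 1 ≤ k) (hd : p ∣ k - 1)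
    (x y : V) : (B Γ p * B Γ p) x y = 2 := by
  have h1 := h.matrix_eq (α := ZMod p)
  have e : B Γ p * B Γ p =
      1 + 2 • Γ.adjMatrix (ZMod p) + Γ.adjMatrix (ZMod p) ^ 2 := by
    unfold B
    rw [two_smul, sq]
    noncomm_ring
  have e2 : (1 : ZMod p) + 1 = 2 := by norm_num
  rw [e, h1]
  simp only [Matrix.add_apply, Matrix.smul_apply, Matrix.one_apply, SimpleGraph.adjMatrix_apply,
    SimpleGraph.compl_adj]
  by_cases hxy : x = y
  · subst hxy
    simp [cast_k hk hd, e2]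
  · by_cases hadj : Γ.Adj x y
    · simp [hxy, hadj]
    · simp [hxy, hadj]

theorem B_col {k p : ℕ} (h : Γ.IsSRGWith (Fintype.card V) k 0 2) (hk : 1 ≤ k) (hd : p ∣ k - 1)
    (y : V) : ∑ x, B Γ p x y = 2 := by
  unfold B
  simp only [Matrix.add_apply, Finset.sum_add_distrib]
  have h1 : ∑ x, (1 : Matrix V V (ZMod p)) x y = 1 := by
    simp [Matrix.one_apply]
  have h2 : ∑ x, Γ.adjMatrix (ZMod p) x y = k := by
    have : ∑ x, Γ.adjMatrix (ZMod p) x y = ∑ x, if Γ.Adj y x then (1 : ZMod p) else 0 := by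
      apply Finset.sum_congr rfl
      intro x _
      rw [SimpleGraph.adjMatrix_apply]
      simp [SimpleGraph.adj_comm]
    rw [this, Finset.sum_boole]
    congr 1
    rw [← h.regular y, ← SimpleGraph.card_neighborFinset_eq_degree]
    congr 1
    ext x
    simp
  rw [h1, h2, cast_k hk hd]
  norm_num

/-- the matrix of `B` and an automorphism -/
def M (p : ℕ) (σ : Γ ≃g Γ) : Matrix V V (ZMod p) := Matrix.of fun x y => B Γ p (σ x) y

theorem M_apply (p : ℕ) (σ : Γ ≃g Γ) (x y : V) : M Γ p σ x y = B Γ p (σ x) y := rfl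

theorem M_pow {k p : ℕ} (h : Γ.IsSRGWith (Fintype.card V) k 0 2) (hk : 1 ≤ k) (hd : p ∣ k - 1)
    (σ : Γ ≃g Γ) (j : ℕ) (x y : V) : (M Γ p σ ^ (j + 2)) x y = 2 ^ (j + 1) := by
  induction j generalizing x y with
  | zero =>
    rw [sq, Matrix.mul_apply]
    have : ∀ z, M Γ p σ x z * M Γ p σ z y = B Γ p (σ (σ x)) (σ z) * B Γ p (σ z) y := by
      intro z
      rw [M_apply, M_apply, B_inv]
    simp only [this]
    have h2 : ∑ z, B Γ p (σ (σ x)) (σ z) * B Γ p (σ z) y =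
        ∑ w, B Γ p (σ (σ x)) w * B Γ p w y :=
      Equiv.sum_comp σ.toEquiv (fun w => B Γ p (σ (σ x)) w * B Γ p w y)
    rw [h2, ← Matrix.mul_apply, B_sq Γ h hk hd]
    norm_num
  | succ j ih =>
    rw [show j + 1 + 2 = (j + 2) + 1 by ring, pow_succ, Matrix.mul_apply]
    simp only [ih, M_apply]
    rw [← Finset.mul_sum]
    have h2 : ∑ z, B Γ p (σ z) y = ∑ w, B Γ p w y :=
      Equiv.sum_comp σ.toEquiv (fun w => B Γ p w y)
    rw [h2, B_col Γ h hk hd]
    ring

theorem card_cast {k p : ℕ} (hp : p.Prime) (hp2 : p ≠ 2) (h : Γ.IsSRGWith (Fintype.card V) k 0 2)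
    (hk : 1 ≤ k) (hd : p ∣ k - 1) (x₀ : V) : (Fintype.card V : ZMod p) = 2 := by
  have := Fact.mk hp
  have hpos : 0 < Fintype.card V := Fintype.card_pos_iff.2 ⟨x₀⟩
  have h1 := h.param_eq Γ hpos
  have h3 : k + 1 ≤ Fintype.card V := by
    have := Γ.degree_lt_card_verts x₀
    rw [h.regular x₀] at this
    omega
  have h4 : ((k * (k - 0 - 1) : ℕ) : ZMod p) = (((Fintype.card V - k - 1) * 2 : ℕ) : ZMod p) := by
    rw [h1]
  have h5 : ((k - 0 - 1 : ℕ) : ZMod p) = 0 := by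
    rw [Nat.sub_zero]
    exact (ZMod.natCast_eq_zero_iff (k - 1) p).2 hd
  rw [Nat.cast_mul, h5, mul_zero, Nat.cast_mul, Nat.sub_sub, Nat.cast_sub h3] at h4
  have hk1 := cast_k hk hd
  push_cast at h4
  rw [hk1] at h4
  have h2 : (2 : ZMod p) ≠ 0 := by
    intro h0
    have : ((2 : ℕ) : ZMod p) = 0 := by exact_mod_cast h0
    rw [ZMod.natCast_eq_zero_iff] at this
    exact hp2 ((Nat.prime_dvd_prime_iff_eq hp Nat.prime_two).1 this)
  have h6 := (mul_eq_zero.1 h4.symm).resolve_right h2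
  have : (1 : ZMod p) + 1 = 2 := by norm_num
  rw [this] at h6
  exact sub_eq_zero.1 h6

/-- the congruence -/
theorem congr_two {k p : ℕ} (hp : p.Prime) (hp2 : p ≠ 2)
    (h : Γ.IsSRGWith (Fintype.card V) k 0 2) (hk : 1 ≤ k) (hd : p ∣ k - 1) (x₀ : V)
    (σ : Γ ≃g Γ) :
    ((univ.filter (fun x => σ x = x ∨ Γ.Adj (σ x) x)).card : ZMod p) = 2 := by
  have := Fact.mk hp
  have h1 := ZMod.trace_pow_card (M Γ p σ)
  rw [ZMod.pow_card] at h1
  have h2 : Matrix.trace (M Γ p σ) =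
      ((univ.filter (fun x => σ x = x ∨ Γ.Adj (σ x) x)).card : ZMod p) := by
    unfold Matrix.trace
    simp only [Matrix.diag_apply, M_apply, B_apply]
    rw [Finset.sum_boole]
  have h3 : Matrix.trace (M Γ p σ ^ p) = 2 := by
    have hp3 : 2 ≤ p := hp.two_le
    obtain ⟨j, hj⟩ := Nat.exists_eq_add_of_le' hp3
    have h4 : ∀ x y, (M Γ p σ ^ p) x y = 1 := by
      intro x y
      have h5 : (M Γ p σ ^ p) x y = 2 ^ (p - 1) := by
        have h6 := M_pow Γ h hk hd σ j x y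
        rw [← hj] at h6
        rw [h6]
        congr 1
        omega
      rw [h5]
      apply ZMod.pow_card_sub_one_eq_one
      intro h0
      have : ((2 : ℕ) : ZMod p) = 0 := by exact_mod_cast h0
      rw [ZMod.natCast_eq_zero_iff] at this
      exact hp2 ((Nat.prime_dvd_prime_iff_eq hp Nat.prime_two).1 this)
    unfold Matrix.trace
    simp only [Matrix.diag_apply, h4]
    rw [Finset.sum_const, Finset.card_univ, nsmul_eq_mul, mul_one]
    exact card_cast Γ hp hp2 h hk hd x₀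
  rw [← h2, ← h1, h3]


/-- no automorphism moves every vertex to a non-neighbour -/
theorem no_far {k p : ℕ} (hp : p.Prime) (hp2 : p ≠ 2)
    (h : Γ.IsSRGWith (Fintype.card V) k 0 2) (hk : 1 ≤ k) (hd : p ∣ k - 1) (x₀ : V)
    (σ : Γ ≃g Γ) (hσ : ∀ x, σ x ≠ x ∧ ¬ Γ.Adj (σ x) x) : False := by
  have h1 := congr_two Γ hp hp2 h hk hd x₀ σ
  have h2 : univ.filter (fun x => σ x = x ∨ Γ.Adj (σ x) x) = ∅ := by
    apply Finset.filter_eq_empty_iff.2
    intro x _ hx
    rcases hx with hx | hx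
    · exact (hσ x).1 hx
    · exact (hσ x).2 hx
  rw [h2, Finset.card_empty, Nat.cast_zero] at h1
  have : ((2 : ℕ) : ZMod p) = 0 := by exact_mod_cast h1.symm
  rw [ZMod.natCast_eq_zero_iff] at this
  exact hp2 ((Nat.prime_dvd_prime_iff_eq hp Nat.prime_two).1 this)

/-- two non-trivial automorphisms which commute with a transitive group are equal -/
theorem pair {k p : ℕ} (hp : p.Prime) (hp2 : p ≠ 2)
    (h : Γ.IsSRGWith (Fintype.card V) k 0 2) (hk : 1 ≤ k) (hd : p ∣ k - 1) (x₀ : V)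
    (G : Set (Γ ≃g Γ)) (htr : ∀ x y, ∃ g ∈ G, g x = y) (z w : Γ ≃g Γ)
    (hz : ∀ g ∈ G, ∀ x, g (z x) = z (g x)) (hw : ∀ g ∈ G, ∀ x, g (w x) = w (g x))
    (hz1 : z x₀ ≠ x₀) (hw1 : w x₀ ≠ x₀) : z x₀ = w x₀ := by
  -- every automorphism commuting with `G` moving `x₀` moves `x₀` to a neighbour
  have key : ∀ u : Γ ≃g Γ, (∀ g ∈ G, ∀ x, g (u x) = u (g x)) → u x₀ ≠ x₀ → Γ.Adj (u x₀) x₀ := by
    intro u hu hu1
    by_contra hna
    apply no_far Γ hp hp2 h hk hd x₀ u
    intro x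
    obtain ⟨g, hg, hgx⟩ := htr x₀ x
    constructor
    · intro he
      apply hu1
      apply g.injective
      rw [hu g hg, hgx, he]
    · intro he
      apply hna
      rw [← g.map_adj_iff, hu g hg, hgx]
      exact he
  by_contra hne
  have k1 := key z hz hz1
  have k2 := key w hw hw1
  -- the automorphism `w⁻¹ z`
  have k3 : Γ.Adj (z x₀) (w x₀) := by
    have := key (z.trans w.symm) (by
      intro g hg x
      show g (w.symm (z x)) = w.symm (z (g x))
      apply w.injective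
      rw [← hw g hg, w.apply_symm_apply, w.apply_symm_apply, hz g hg]) (by
      intro he
      apply hne
      have h2 : w.symm (z x₀) = x₀ := he
      rw [← h2, w.apply_symm_apply]
      rw [h2])
    have h3 : Γ.Adj (w.symm (z x₀)) x₀ := this
    rw [← w.map_adj_iff, w.apply_symm_apply] at h3
    exact h3
  have h0 := h.of_adj (z x₀) (w x₀) k3
  have hmem : x₀ ∈ Γ.commonNeighbors (z x₀) (w x₀) := ⟨k1, k2⟩
  rw [Fintype.card_eq_zero_iff] at h0
  exact h0.false ⟨x₀, hmem⟩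


theorem ne_one_iff {k p : ℕ} (hp : p.Prime) (hp2 : p ≠ 2)
    (h : Γ.IsSRGWith (Fintype.card V) k 0 2) (hk : 1 ≤ k) (hd : p ∣ k - 1) (x₀ : V)
    (G : Set (Γ ≃g Γ)) (htr : ∀ x y, ∃ g ∈ G, g x = y) (z w : Γ ≃g Γ)
    (hz : ∀ g ∈ G, ∀ x, g (z x) = z (g x)) (hw : ∀ g ∈ G, ∀ x, g (w x) = w (g x))
    (he : z x₀ = w x₀) : z = w := by
  ext x
  obtain ⟨g, hg, hgx⟩ := htr x₀ x
  rw [← hgx, ← hz g hg, ← hw g hg, he]

theorem card_centraliser {k p : ℕ} (hp : p.Prime) (hp2 : p ≠ 2)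
    (h : Γ.IsSRGWith (Fintype.card V) k 0 2) (hk : 1 ≤ k) (hd : p ∣ k - 1) (x₀ : V)
    (G : Set (Γ ≃g Γ)) (htr : ∀ x y, ∃ g ∈ G, g x = y) :
    Nat.card (Subgroup.centralizer G) ≤ 2 := by
  classical
  have hc : ∀ z ∈ Subgroup.centralizer G, ∀ g ∈ G, ∀ x, g (z x) = z (g x) := by
    intro z hz g hg x
    have h1 := Subgroup.mem_centralizer_iff.1 hz g hg
    exact DFunLike.congr_fun h1 x
  let f : Subgroup.centralizer G → Bool := fun z => decide ((z : Γ ≃g Γ) x₀ = x₀)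
  have hf : Function.Injective f := by
    intro z w hzw
    apply Subtype.ext
    apply ne_one_iff Γ hp hp2 h hk hd x₀ G htr _ _ (hc z z.2) (hc w w.2)
    by_cases h1 : (z : Γ ≃g Γ) x₀ = x₀
    · have h2 : (w : Γ ≃g Γ) x₀ = x₀ := by
        have : f w = true := by rw [← hzw]; simp [f, h1]
        simpa [f] using this
      rw [h1, h2]
    · have h2 : (w : Γ ≃g Γ) x₀ ≠ x₀ := by
        have : f w = false := by rw [← hzw]; simp [f, h1]
        simpa [f] using this
      exact pair Γ hp hp2 h hk hd x₀ G htr _ _ (hc z z.2) (hc w w.2) h1 h2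
  have := Nat.card_le_card_of_injective f hf
  simpa using this

/-- a finite nilpotent group whose centre has at most two elements is a `2`-group -/
theorem two_group {H : Type*} [Group H] [Finite H] (hn : Group.IsNilpotent H)
    (hc : Nat.card (Subgroup.center H) ≤ 2) (q : ℕ) (hq : q.Prime) (hqd : q ∣ Nat.card H) :
    q = 2 := by
  classical
  by_contra hq2
  have := Fact.mk hq
  have ht := (Group.isNilpotent_of_finite_tfae (G := H)).out 0 4
  obtain ⟨e⟩ := ht.1 hn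
  have hcard : Nat.card H ≠ 0 := Nat.card_pos.ne'
  let q' : (Nat.card H).primeFactors := ⟨q, Nat.mem_primeFactors.2 ⟨hq, hqd, hcard⟩⟩
  let P0 : Sylow q' H := (default : Sylow q H)
  have hP : IsPGroup q P0 := P0.isPGroup'
  have hnt : Nontrivial P0 := by
    have h1 : q ∣ Nat.card P0 := (default : Sylow q H).dvd_card_of_dvd_card hqd
    have h2 : 1 < Nat.card P0 := lt_of_lt_of_le hq.one_lt (Nat.le_of_dvd Nat.card_pos h1)
    exact Finite.one_lt_card_iff_nontrivial.1 h2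
  have hZ := hP.center_nontrivial
  obtain ⟨z, hz1⟩ := exists_ne (1 : Subgroup.center P0)
  have hzc : ∀ g : P0, g * (z : P0) = (z : P0) * g := fun g =>
    Subgroup.mem_center_iff.1 z.2 g
  let f : (∀ p : (Nat.card H).primeFactors, ∀ P : Sylow p H, P) :=
    Pi.mulSingle q' (Pi.mulSingle P0 (z : P0))
  have hfc : ∀ g, g * f = f * g := by
    intro g
    funext p P
    by_cases hp : p = q'
    · subst hp
      by_cases hP0 : P = P0
      · subst hP0
        simp only [f, Pi.mul_apply, Pi.mulSingle_eq_same]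
        exact hzc _
      · simp only [f, Pi.mul_apply, Pi.mulSingle_eq_same]
        rw [Pi.mulSingle_eq_of_ne hP0]
        simp
    · simp only [f, Pi.mul_apply]
      rw [Pi.mulSingle_eq_of_ne hp]
      simp
  have hec : e f ∈ Subgroup.center H := by
    rw [Subgroup.mem_center_iff]
    intro g
    obtain ⟨g', rfl⟩ := e.surjective g
    rw [← map_mul, ← map_mul, hfc]
  have hsq : (e f) ^ 2 = 1 := by
    have h1 : (⟨e f, hec⟩ : Subgroup.center H) ^ Nat.card (Subgroup.center H) = 1 :=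
      pow_card_eq_one'
    have h2 : (e f) ^ Nat.card (Subgroup.center H) = 1 := by
      have h5 := congrArg Subtype.val h1
      simpa only [Subgroup.coe_pow, Subgroup.coe_one] using h5
    have h3 : 0 < Nat.card (Subgroup.center H) := Nat.card_pos
    have h4 : Nat.card (Subgroup.center H) = 1 ∨ Nat.card (Subgroup.center H) = 2 := by omega
    rcases h4 with h4 | h4
    · rw [h4, pow_one] at h2
      rw [h2, one_pow]
    · rw [h4] at h2
      exact h2
  have hf2 : f ^ 2 = 1 := by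
    apply e.injective
    rw [map_pow, hsq, map_one]
  have hz2 : (z : P0) ^ 2 = 1 := by
    have h1 := congrFun (congrFun hf2 q') P0
    simpa [f] using h1
  obtain ⟨m, hm⟩ := hP (z : P0)
  have ho1 : orderOf (z : P0) ∣ 2 := orderOf_dvd_of_pow_eq_one hz2
  have ho2 : orderOf (z : P0) ∣ q ^ m := orderOf_dvd_of_pow_eq_one hm
  have hcop : Nat.Coprime 2 (q ^ m) :=
    Nat.Coprime.pow_right _ ((Nat.coprime_primes Nat.prime_two hq).2 (Ne.symm hq2))
  have ho : orderOf (z : P0) = 1 := Nat.eq_one_of_dvd_coprimes hcop ho1 ho2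
  apply hz1
  apply Subtype.ext
  exact orderOf_eq_one_iff.1 ho


theorem dvd_card (G : Subgroup (Γ ≃g Γ)) (htr : ∀ x y, ∃ g ∈ G, g x = y) (x₀ : V) :
    Fintype.card V ∣ Nat.card G := by
  have : MulAction.IsPretransitive G V :=
    ⟨fun x y => by obtain ⟨g, hg, h⟩ := htr x y; exact ⟨⟨g, hg⟩, h⟩⟩
  have h1 := MulAction.index_stabilizer_of_transitive G x₀
  rw [← Nat.card_eq_fintype_card, ← h1]
  exact Subgroup.index_dvd_card _

theorem arith (s v n : ℕ) (hv : 2 * v = ((s + 3) ^ 2 + 1) ^ 2 + ((s + 3) ^ 2 + 1) + 2)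
    (hn : v = 2 ^ n) : False := by
  have h1 : (s ^ 2 + 5 * s + 8) * (s ^ 2 + 7 * s + 14) = 2 ^ (n + 1) := by
    have h0 : 2 ^ (n + 1) = 2 * v := by rw [hn, pow_succ, mul_comm]
    rw [h0, hv]
    ring
  obtain ⟨a, -, ha⟩ := (Nat.dvd_prime_pow Nat.prime_two).1 (Dvd.intro _ h1)
  obtain ⟨b, -, hb⟩ := (Nat.dvd_prime_pow Nat.prime_two).1 (Dvd.intro_left _ h1)
  have hab : a ≤ b := by
    by_contra hlt
    have h2 : 2 ^ b ≤ 2 ^ a := Nat.pow_le_pow_right (by norm_num) (by omega)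
    rw [← ha, ← hb] at h2
    omega
  have hd : 2 ^ a ∣ 2 ^ b - 2 ^ a := Nat.dvd_sub (pow_dvd_pow 2 hab) dvd_rfl
  rw [← ha, ← hb] at hd
  have he : s ^ 2 + 7 * s + 14 - (s ^ 2 + 5 * s + 8) = 2 * s + 6 := by omega
  rw [he] at hd
  have := Nat.le_of_dvd (by omega) hd
  nlinarith

theorem not_nilpotent {k p t : ℕ} (hp : p.Prime) (hp2 : p ≠ 2)
    (h : Γ.IsSRGWith (Fintype.card V) k 0 2) (hk : 10 < k) (ht : k = t ^ 2 + 1) (hd : p ∣ t)
    (x₀ : V) (G : Subgroup (Γ ≃g Γ)) (htr : ∀ x y, ∃ g ∈ G, g x = y) :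
    ¬ Group.IsNilpotent G := by
  intro hn
  have hfin : Finite (Γ ≃g Γ) := DFunLike.finite _
  have hd' : p ∣ k - 1 := by
    rw [ht, Nat.add_sub_cancel, sq]
    exact Dvd.dvd.mul_right hd t
  have hc : Nat.card (Subgroup.center G) ≤ 2 := by
    refine le_trans ?_ (card_centraliser Γ hp hp2 h (by omega) hd' x₀ (G : Set (Γ ≃g Γ)) htr)
    let f : Subgroup.center G → Subgroup.centralizer (G : Set (Γ ≃g Γ)) := fun z =>
      ⟨((z : G) : Γ ≃g Γ), by
        rw [Subgroup.mem_centralizer_iff]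
        intro g hg
        exact congrArg Subtype.val (Subgroup.mem_center_iff.1 z.2 ⟨g, hg⟩)⟩
    apply Nat.card_le_card_of_injective f
    intro z w hzw
    apply Subtype.ext
    apply Subtype.ext
    have h5 : ((f z : Subgroup.centralizer (G : Set (Γ ≃g Γ))) : Γ ≃g Γ) =
        ((f w : Subgroup.centralizer (G : Set (Γ ≃g Γ))) : Γ ≃g Γ) := by rw [hzw]
    exact h5
  have hv := dvd_card Γ G htr x₀
  have hpos : 0 < Fintype.card V := Fintype.card_pos_iff.2 ⟨x₀⟩
  have hpow := Nat.eq_prime_pow_of_unique_prime_dvd (n := Fintype.card V) (p := 2) hpos.ne'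
    (fun {d} hd1 hd2 => two_group hn hc d hd1 (hd2.trans hv))
  have h1 := h.param_eq Γ hpos
  have h3 : k + 1 ≤ Fintype.card V := by
    have := Γ.degree_lt_card_verts x₀
    rw [h.regular x₀] at this
    omega
  obtain ⟨w, hw⟩ := Nat.exists_eq_add_of_le h3
  have ht3 : 3 ≤ t := by
    by_contra hlt
    have : t ≤ 2 := by omega
    nlinarith
  obtain ⟨s, rfl⟩ := Nat.exists_eq_add_of_le' ht3
  apply arith s (Fintype.card V) _ _ hpow
  have e1 : Fintype.card V - k - 1 = w := by omega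
  have e2 : k - 0 - 1 = (s + 3) ^ 2 := by omega
  rw [e1, e2] at h1
  rw [hw]
  subst ht
  nlinarith

end Pool.Agent.Helper675.SRG02
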