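import Mathlib
import Pool.Agent.Helper675.SRG02

set_option autoImplicit false

namespace Pool.Agent.Helper675.SRG02b

open Finset Matrix Pool.Agent.Helper675.SRG02

variable {V : Type*} [Fintype V] [DecidableEq V] (Γ : SimpleGraph V) [DecidableRel Γ.Adj]

theorem det_sq {k : ℕ} (h : Γ.IsSRGWith (Fintype.card V) k 0 2) (hk : 1 < k) (x₀ : V)
    (hv : Even (Fintype.card V)) : IsSquare (k - 1) := by
  obtain ⟨n, hn⟩ : ∃ n, n = k - 1 := ⟨_, rfl⟩
  have hkn : k = n + 1 := by omega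
  have hn0 : (n : ℚ) ≠ 0 := by
    have : n ≠ 0 := by omega
    exact_mod_cast this
  have hpos : 0 < Fintype.card V := Fintype.card_pos_iff.2 ⟨x₀⟩
  have h1 := h.matrix_eq (α := ℚ)
  have e : (1 + Γ.adjMatrix ℚ) * (1 + Γ.adjMatrix ℚ) =
      (n : ℚ) • (1 + replicateCol Unit (fun _ : V => (2 : ℚ) / n) *
        replicateRow Unit (fun _ : V => (1 : ℚ))) := by
    have e0 : (1 + Γ.adjMatrix ℚ) * (1 + Γ.adjMatrix ℚ) =
      1 + 2 • Γ.adjMatrix ℚ + Γ.adjMatrix ℚ ^ 2 := by
      rw [two_smul, sq]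
      noncomm_ring
    rw [e0, h1]
    ext x y
    simp only [Matrix.add_apply, Matrix.smul_apply, Matrix.one_apply, SimpleGraph.adjMatrix_apply,
      SimpleGraph.compl_adj, Matrix.mul_apply, Matrix.replicateCol_apply,
      Matrix.replicateRow_apply]
    subst hkn
    by_cases hxy : x = y
    · subst hxy
      simp
      field_simp
      ring
    · by_cases hadj : Γ.Adj x y
      · simp [hxy, hadj]
        field_simp
      · simp [hxy, hadj]
        field_simp
  have hd := congrArg Matrix.det e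
  rw [Matrix.det_mul, Matrix.det_smul, Matrix.det_one_add_replicateCol_mul_replicateRow] at hd
  have hdot : (fun _ : V => (1 : ℚ)) ⬝ᵥ (fun _ : V => (2 : ℚ) / n) =
      (Fintype.card V : ℚ) * (2 / n) := by
    simp [dotProduct]
  rw [hdot] at hd
  have hp := h.param_eq Γ hpos
  have h3 : k + 1 ≤ Fintype.card V := by
    have := Γ.degree_lt_card_verts x₀
    rw [h.regular x₀] at this
    omega
  obtain ⟨w, hw⟩ := Nat.exists_eq_add_of_le h3
  have e1 : Fintype.card V - k - 1 = w := by omega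
  have e2 : k - 0 - 1 = n := by omega
  rw [e1, e2] at hp
  have hvn : 2 * (Fintype.card V : ℚ) + n = (n + 2) ^ 2 := by
    have : 2 * Fintype.card V + n = (n + 2) ^ 2 := by
      rw [hw]
      subst hkn
      nlinarith
    exact_mod_cast this
  obtain ⟨m, hm⟩ := hv
  obtain ⟨j, rfl⟩ : ∃ j, m = j + 1 := ⟨m - 1, by omega⟩
  have hpow : (n : ℚ) ^ Fintype.card V = n * (n ^ j * n ^ j * n) := by
    rw [hm, show j + 1 + (j + 1) = 1 + (j + j + 1) by ring]
    ring
  have hfin : (n : ℚ) = (Matrix.det (1 + Γ.adjMatrix ℚ) / (n ^ j * (n + 2))) *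
      (Matrix.det (1 + Γ.adjMatrix ℚ) / (n ^ j * (n + 2))) := by
    have hn2 : (n : ℚ) + 2 ≠ 0 := by positivity
    rw [div_mul_div_comm, hd, hpow]
    have h5 : (1 + (Fintype.card V : ℚ) * (2 / n)) = (n + 2) ^ 2 / n := by
      rw [← hvn]
      field_simp
      ring
    rw [h5]
    field_simp
  rw [← hn]
  have : IsSquare (n : ℚ) := ⟨_, hfin⟩
  exact Rat.isSquare_natCast_iff.1 this


theorem not_nilpotent' {k p : ℕ} (hp : p.Prime) (hp2 : p ≠ 2)
    (h : Γ.IsSRGWith (Fintype.card V) k 0 2) (hk : 10 < k) (hd' : p ∣ k - 1)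
    (x₀ : V) (G : Subgroup (Γ ≃g Γ)) (htr : ∀ x y, ∃ g ∈ G, g x = y) :
    ¬ Group.IsNilpotent G := by
  intro hn
  have hfin : Finite (Γ ≃g Γ) := DFunLike.finite _
  have hc : Nat.card (Subgroup.center G) ≤ 2 := by
    refine le_trans ?_ (card_centraliser Γ hp hp2 h (by omega) hd' x₀ (G : Set (Γ ≃g Γ)) htr)
    let f : Subgroup.center G → Subgroup.centralizer (G : Set (Γ ≃g Γ)) := fun z =>
      ⟨((z : G) : Γ ≃g Γ), by
        rw [Subgroup.mem_centralizer_iff]
        intro g hg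
        exact congrArg Subtype.val (Subgroup.mem_center_iff.1 z.2 ⟨g, hg⟩)⟩
    apply Nat.card_le_card_of_injective f
    intro z w hzw
    apply Subtype.ext
    apply Subtype.ext
    have h5 : ((f z : Subgroup.centralizer (G : Set (Γ ≃g Γ))) : Γ ≃g Γ) =
        ((f w : Subgroup.centralizer (G : Set (Γ ≃g Γ))) : Γ ≃g Γ) := by rw [hzw]
    exact h5
  have hv := dvd_card Γ G htr x₀
  have hpos : 0 < Fintype.card V := Fintype.card_pos_iff.2 ⟨x₀⟩
  have hpow := Nat.eq_prime_pow_of_unique_prime_dvd (n := Fintype.card V) (p := 2) hpos.ne'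
    (fun {d} hd1 hd2 => two_group hn hc d hd1 (hd2.trans hv))
  have h3 : k + 1 ≤ Fintype.card V := by
    have := Γ.degree_lt_card_verts x₀
    rw [h.regular x₀] at this
    omega
  have heven : Even (Fintype.card V) := by
    rw [hpow]
    apply (Nat.even_pow.2 ⟨even_two, ?_⟩)
    intro h0
    rw [h0, pow_zero] at hpow
    omega
  obtain ⟨t, ht⟩ := det_sq Γ h (by omega) x₀ heven
  have hpt : p ∣ t := by
    rw [ht] at hd'
    rcases hp.dvd_mul.1 hd' with h1 | h1 <;> exact h1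
  exact not_nilpotent Γ hp hp2 h hk (t := t) (by rw [sq, ← ht]; omega) hpt x₀ G htr hn

end Pool.Agent.Helper675.SRG02b
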