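import Mathlib
import Pool.Agent.Helper675.SRG02b

set_option autoImplicit false

namespace Pool.Agent.Helper675.SRG02c

open Finset Matrix Pool.Agent.Helper675.SRG02 Pool.Agent.Helper675.SRG02b

variable {V : Type*} [Fintype V] [DecidableEq V] (Γ : SimpleGraph V) [DecidableRel Γ.Adj]

theorem idem_trace (E : Matrix V V ℚ) (hE : E * E = E) : ∃ f : ℕ, Matrix.trace E = f := by
  have h1 : IsIdempotentElem (Matrix.toLin' E) := by
    unfold IsIdempotentElem
    rw [Module.End.mul_eq_comp, ← Matrix.toLin'_mul, hE]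
  have h2 := (LinearMap.isProj_range_iff_isIdempotentElem (Matrix.toLin' E)).2 h1
  have h3 := h2.trace
  rw [Matrix.trace_toLin'_eq] at h3
  exact ⟨_, h3⟩

theorem verts {k t : ℕ} (h : Γ.IsSRGWith (Fintype.card V) k 0 2) (ht : k = t ^ 2 + 1) (x₀ : V) :
    2 * (Fintype.card V : ℚ) = (t : ℚ) ^ 4 + 3 * t ^ 2 + 4 := by
  have hpos : 0 < Fintype.card V := Fintype.card_pos_iff.2 ⟨x₀⟩
  have hp := h.param_eq Γ hpos
  have h3 : k + 1 ≤ Fintype.card V := by
    have := Γ.degree_lt_card_verts x₀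
    rw [h.regular x₀] at this
    omega
  obtain ⟨w, hw⟩ := Nat.exists_eq_add_of_le h3
  have e1 : Fintype.card V - k - 1 = w := by omega
  have e2 : k - 0 - 1 = t ^ 2 := by omega
  rw [e1, e2] at hp
  have : 2 * Fintype.card V = t ^ 4 + 3 * t ^ 2 + 4 := by
    rw [hw]
    subst ht
    nlinarith
  exact_mod_cast this

/-- the all-one matrix -/
def J (V : Type*) : Matrix V V ℚ := Matrix.of fun _ _ => 1

theorem four_dvd {k t : ℕ} (h : Γ.IsSRGWith (Fintype.card V) k 0 2) (ht : k = t ^ 2 + 1)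
    (ht0 : 0 < t) (x₀ : V) : 4 ∣ (t ^ 2 + t + 2) * (t ^ 2 + 1) := by
  have htq : (t : ℚ) ≠ 0 := by exact_mod_cast ht0.ne'
  have hv := verts Γ h ht x₀
  have h1 := h.matrix_eq (α := ℚ)
  obtain ⟨Bm, hB⟩ : ∃ Bm, Bm = 1 + Γ.adjMatrix ℚ := ⟨_, rfl⟩
  have hBB : Bm * Bm = ((t : ℚ) ^ 2) • (1 : Matrix V V ℚ) + (2 : ℚ) • J V := by
    have e0 : Bm * Bm = 1 + 2 • Γ.adjMatrix ℚ + Γ.adjMatrix ℚ ^ 2 := by
      rw [hB, two_smul, sq]
      noncomm_ring
    rw [e0, h1]
    ext x y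
    simp only [Matrix.add_apply, Matrix.smul_apply, Matrix.one_apply, SimpleGraph.adjMatrix_apply,
      SimpleGraph.compl_adj, J, Matrix.of_apply]
    subst ht
    by_cases hxy : x = y
    · subst hxy
      simp
      ring
    · by_cases hadj : Γ.Adj x y
      · simp [hxy, hadj]
      · simp [hxy, hadj]
  have hrow : ∀ x, ∑ z, Bm x z = (t : ℚ) ^ 2 + 2 := by
    intro x
    rw [hB]
    simp only [Matrix.add_apply, Finset.sum_add_distrib, Matrix.one_apply,
      SimpleGraph.adjMatrix_apply]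
    rw [Finset.sum_ite_eq, if_pos (mem_univ _), Finset.sum_boole]
    have : (univ.filter (fun z => Γ.Adj x z)).card = k := by
      rw [← h.regular x, ← SimpleGraph.card_neighborFinset_eq_degree]
      congr 1
      ext z
      simp
    rw [this, ht]
    push_cast
    ring
  have hsymm : ∀ x z, Bm x z = Bm z x := by
    intro x z
    rw [hB]
    simp only [Matrix.add_apply, Matrix.one_apply, SimpleGraph.adjMatrix_apply,
      SimpleGraph.adj_comm, eq_comm]
  have hBJ : Bm * J V = ((t : ℚ) ^ 2 + 2) • J V := by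
    ext x y
    simp only [Matrix.mul_apply, J, Matrix.of_apply, mul_one, Matrix.smul_apply, smul_eq_mul]
    exact hrow x
  have hJB : J V * Bm = ((t : ℚ) ^ 2 + 2) • J V := by
    ext x y
    simp only [Matrix.mul_apply, J, Matrix.of_apply, one_mul, Matrix.smul_apply, smul_eq_mul,
      mul_one]
    rw [← hrow y]
    exact Finset.sum_congr rfl (fun z _ => hsymm z y)
  have hJJ : J V * J V = (Fintype.card V : ℚ) • J V := by
    ext x y
    simp [Matrix.mul_apply, J]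
  have hvpos : (0 : ℚ) < Fintype.card V := by
    have hpos : 0 < Fintype.card V := Fintype.card_pos_iff.2 ⟨x₀⟩
    exact_mod_cast hpos
  obtain ⟨c, hc⟩ : ∃ c : ℚ, c = ((t : ℚ) ^ 2 + t + 2) / Fintype.card V := ⟨_, rfl⟩
  have hcv : c * Fintype.card V = (t : ℚ) ^ 2 + t + 2 := by
    rw [hc]
    field_simp
  have hc2 : c * ((t : ℚ) ^ 2 - t + 2) = 2 := by
    have e3 : ((t : ℚ) ^ 2 + t + 2) * ((t : ℚ) ^ 2 - t + 2) = 2 * Fintype.card V := by
      rw [hv]; ring
    rw [hc, div_mul_eq_mul_div, e3]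
    field_simp
  obtain ⟨X, hX⟩ : ∃ X : Matrix V V ℚ, X = Bm + (t : ℚ) • (1 : Matrix V V ℚ) - c • J V := ⟨_, rfl⟩
  have hXX : X * X = (2 * (t : ℚ)) • X := by
    have e4 : X * X = Bm * Bm + (2 * (t : ℚ)) • Bm + ((t : ℚ) ^ 2) • (1 : Matrix V V ℚ)
        - c • (Bm * J V) - c • (J V * Bm) - (2 * t * c) • J V + (c ^ 2) • (J V * J V) := by
      rw [hX]
      simp only [Matrix.add_mul, Matrix.mul_add, Matrix.sub_mul, Matrix.mul_sub,
        Matrix.smul_mul, Matrix.mul_smul, Matrix.one_mul, Matrix.mul_one]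
      module
    rw [e4, hBB, hBJ, hJB, hJJ, hX]
    have e5 : (2 : ℚ) - 2 * c * ((t : ℚ) ^ 2 + 2) - 2 * t * c + c ^ 2 * Fintype.card V =
        - (2 * t * c) := by
      have : c ^ 2 * Fintype.card V = c * ((t : ℚ) ^ 2 + t + 2) := by rw [← hcv]; ring
      rw [this]
      linarith
    have e6 : (t : ℚ) ^ 2 • (1 : Matrix V V ℚ) + (2 : ℚ) • J V + (2 * (t : ℚ)) • Bm
        + (t : ℚ) ^ 2 • (1 : Matrix V V ℚ) - c • (((t : ℚ) ^ 2 + 2) • J V)
        - c • (((t : ℚ) ^ 2 + 2) • J V) - (2 * (t : ℚ) * c) • J V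
        + c ^ 2 • ((Fintype.card V : ℚ) • J V) =
        (2 * (t : ℚ)) • Bm + (2 * (t : ℚ) ^ 2) • (1 : Matrix V V ℚ) +
        ((2 : ℚ) - 2 * c * ((t : ℚ) ^ 2 + 2) - 2 * t * c + c ^ 2 * Fintype.card V) • J V := by
      module
    rw [e6, e5]
    module
  obtain ⟨f, hf⟩ := idem_trace ((1 / (2 * (t : ℚ))) • X) (by
    rw [Matrix.smul_mul, Matrix.mul_smul, hXX, smul_smul, smul_smul]
    congr 1
    field_simp)
  have htr : Matrix.trace X = (Fintype.card V : ℚ) * (1 + t - c) := by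
    rw [hX, hB]
    simp only [Matrix.trace, Matrix.diag_apply, Matrix.sub_apply, Matrix.add_apply,
      Matrix.smul_apply, Matrix.one_apply_eq, SimpleGraph.adjMatrix_apply, SimpleGraph.irrefl, J,
      Matrix.of_apply, smul_eq_mul, mul_one, if_false, add_zero, Finset.sum_const, card_univ,
      nsmul_eq_mul]
  rw [Matrix.trace_smul, htr, smul_eq_mul] at hf
  have h9 : (4 : ℚ) * f = ((t : ℚ) ^ 2 + t + 2) * ((t : ℚ) ^ 2 + 1) := by
    rw [← hf]
    have e7 : (Fintype.card V : ℚ) * (1 + t - c) =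
        (Fintype.card V : ℚ) * (1 + t) - ((t : ℚ) ^ 2 + t + 2) := by
      rw [← hcv]; ring
    rw [e7]
    have e8 : (Fintype.card V : ℚ) = ((t : ℚ) ^ 4 + 3 * t ^ 2 + 4) / 2 := by linarith
    rw [e8]
    field_simp
    ring
  have h10 : 4 * f = (t ^ 2 + t + 2) * (t ^ 2 + 1) := by exact_mod_cast h9
  exact ⟨f, h10.symm⟩

theorem not_pow {k : ℕ} (h : Γ.IsSRGWith (Fintype.card V) k 0 2) (hk : 10 < k) (x₀ : V) (m : ℕ) :
    k - 1 ≠ 2 ^ m := by
  intro hm
  have hm3 : 4 ≤ m := by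
    by_contra hlt
    have : 2 ^ m ≤ 2 ^ 3 := Nat.pow_le_pow_right (by norm_num) (by omega)
    omega
  obtain ⟨j, rfl⟩ := Nat.exists_eq_add_of_le' hm3
  have hpos : 0 < Fintype.card V := Fintype.card_pos_iff.2 ⟨x₀⟩
  have hp := h.param_eq Γ hpos
  have h3 : k + 1 ≤ Fintype.card V := by
    have := Γ.degree_lt_card_verts x₀
    rw [h.regular x₀] at this
    omega
  obtain ⟨w, hw⟩ := Nat.exists_eq_add_of_le h3
  obtain ⟨a, ha⟩ : ∃ a, a = 2 ^ j := ⟨_, rfl⟩
  have ha2 : 2 ^ (j + 4) = 16 * a := by rw [ha, pow_add]; ring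
  have hk2 : k = 16 * a + 1 := by omega
  have e1 : Fintype.card V - k - 1 = w := by omega
  have e2 : k - 0 - 1 = 16 * a := by omega
  rw [e1, e2] at hp
  have hw2 : w = 8 * a * (16 * a + 1) := by
    subst hk2
    nlinarith
  have heven : Even (Fintype.card V) := by
    rw [hw, hw2, hk2]
    refine ⟨8 * a + 1 + 4 * a * (16 * a + 1), ?_⟩
    ring
  obtain ⟨t, ht⟩ := det_sq Γ h (by omega) x₀ heven
  have ht2 : k = t ^ 2 + 1 := by rw [sq, ← ht]; omega
  have ht0 : 0 < t := by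
    rcases Nat.eq_zero_or_pos t with h0 | h0
    · subst h0
      omega
    · exact h0
  have h4 := four_dvd Γ h ht2 ht0 x₀
  have h16 : t * t = 16 * a := by omega
  have htm : t % 4 = 0 := by
    have h7 : (t * t) % 16 = 0 := by omega
    have h8 : t % 4 = 0 ∨ t % 4 = 1 ∨ t % 4 = 2 ∨ t % 4 = 3 := by omega
    obtain ⟨q, hq⟩ : ∃ q, q = t / 4 := ⟨_, rfl⟩
    rcases h8 with h8 | h8 | h8 | h8
    · exact h8
    · have : t = 4 * q + 1 := by omega
      rw [this] at h7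
      have e : (4 * q + 1) * (4 * q + 1) = 8 * (2 * (q * q) + q) + 1 := by ring
      omega
    · have : t = 4 * q + 2 := by omega
      rw [this] at h7
      have e : (4 * q + 2) * (4 * q + 2) = 16 * (q * q + q) + 4 := by ring
      omega
    · have : t = 4 * q + 3 := by omega
      rw [this] at h7
      have e : (4 * q + 3) * (4 * q + 3) = 8 * (2 * (q * q) + 3 * q + 1) + 1 := by ring
      omega
  obtain ⟨q, hq⟩ : ∃ q, t = 4 * q := ⟨t / 4, by omega⟩
  rw [hq] at h4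
  have e : ((4 * q) ^ 2 + 4 * q + 2) * ((4 * q) ^ 2 + 1) =
      4 * ((4 * q ^ 2 + q) * ((4 * q) ^ 2 + 1) + 8 * q ^ 2) + 2 := by ring
  rw [e] at h4
  omega

end Pool.Agent.Helper675.SRG02c
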